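import Pool.Agent.Lib_5f1296.Ring

set_option autoImplicit false
set_option linter.unusedSectionVars false
set_option linter.unusedVariables false

namespace Pool.Agent.Lib_5f1296_ins

open Pool.Agent.Lib_5f1296

/-! ### Sharper nilpotency of ideals generated by square-zero elements -/

theorem sup_pow_le {C : Type} [CommRing C] (A J : Ideal C) (hA : A * A = ⊥) (m : ℕ) :
    (A ⊔ J) ^ (m + 1) ≤ A * J ^ m ⊔ J ^ (m + 1) := by
  induction m with
  | zero => simp
  | succ m ih =>
    rw [pow_succ' (A ⊔ J) (m + 1)]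
    refine le_trans (Ideal.mul_mono_right ih) ?_
    rw [Ideal.sup_mul, Ideal.mul_sup, Ideal.mul_sup]
    refine sup_le (sup_le ?_ ?_) (sup_le ?_ ?_)
    · rw [← mul_assoc, hA, Ideal.bot_mul]
      exact bot_le
    · exact le_sup_left
    · rw [← mul_assoc, mul_comm J A, mul_assoc, ← pow_succ']
      exact le_sup_left
    · rw [← pow_succ']
      exact le_sup_right

theorem span_nilp' {C : Type} [CommRing C] [DecidableEq C] (s : Finset C) :
    (∀ a ∈ s, a * a = 0) → (Ideal.span (s : Set C)) ^ (s.card + 1) = ⊥ := by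
  induction s using Finset.induction_on with
  | empty =>
    intro _
    simp
  | insert a s ha ih =>
    intro h
    rw [Finset.card_insert_of_notMem ha, Finset.coe_insert, Ideal.span_insert]
    have h1 : (Ideal.span (s : Set C)) ^ (s.card + 1) = ⊥ :=
      ih (fun b hb => h b (Finset.mem_insert_of_mem hb))
    have h2 : (Ideal.span ({a} : Set C)) * (Ideal.span ({a} : Set C)) = ⊥ := by
      rw [Ideal.span_singleton_mul_span_singleton, h a (Finset.mem_insert_self a s)]
      simp
    rw [eq_bot_iff]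
    refine le_trans (sup_pow_le _ _ h2 _) ?_
    rw [pow_succ _ (s.card + 1), h1, Ideal.bot_mul, Ideal.mul_bot, sup_bot_eq]

section

variable {C : Type} [CommRing C] (D : Data C)

/-- For each `u` in the group there is a `σ`-stable ideal of nilpotency index at most 19 with
`u` congruent to one modulo the ideal. -/
theorem exists_ideal' (u : (Matrix (Fin 3) (Fin 3) C)ˣ) (hu : u ∈ Cong D.A) :
    ∃ I : Ideal C, (∀ a ∈ I, D.σ a ∈ I) ∧ u ∈ Cong I ∧ I ≤ D.A ∧ I ^ 19 = ⊥ := by
  classical
  let s : Finset C := Finset.univ.image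
    (fun p : Fin 3 × Fin 3 => ((u : Matrix (Fin 3) (Fin 3) C) - 1) p.1 p.2)
  let t : Finset C := s ∪ s.image D.σ
  have hs : s.card ≤ 9 := by
    refine le_trans Finset.card_image_le ?_
    simp
  have ht : t.card ≤ 18 := by
    refine le_trans (Finset.card_union_le _ _) ?_
    have : (s.image D.σ).card ≤ s.card := Finset.card_image_le
    omega
  have hsA : ∀ a ∈ s, a ∈ D.A := by
    intro a ha
    rw [Finset.mem_image] at ha
    obtain ⟨p, _, rfl⟩ := ha
    exact hu p.1 p.2
  have htA : ∀ a ∈ t, a ∈ D.A := by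
    intro a ha
    rw [Finset.mem_union] at ha
    rcases ha with ha | ha
    · exact hsA a ha
    · rw [Finset.mem_image] at ha
      obtain ⟨b, hb, rfl⟩ := ha
      exact D.stab b (hsA b hb)
  have htσ : ∀ a ∈ t, D.σ a ∈ t := by
    intro a ha
    rw [Finset.mem_union] at ha ⊢
    rcases ha with ha | ha
    · right; exact Finset.mem_image_of_mem _ ha
    · left
      rw [Finset.mem_image] at ha
      obtain ⟨b, hb, rfl⟩ := ha
      rw [D.invol]; exact hb
  refine ⟨Ideal.span (t : Set C), ?_, ?_, ?_, ?_⟩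
  · intro a ha
    have h1 : Ideal.span (t : Set C) ≤ (Ideal.span (t : Set C)).comap D.σ := by
      rw [Ideal.span_le]
      intro b hb
      exact Ideal.subset_span (htσ b hb)
    exact h1 ha
  · intro i j
    apply Ideal.subset_span
    show _ ∈ (t : Set C)
    rw [Finset.mem_coe, Finset.mem_union]
    left
    rw [Finset.mem_image]
    exact ⟨(i, j), Finset.mem_univ _, rfl⟩
  · rw [Ideal.span_le]
    intro a ha
    exact htA a ha
  · have h1 := span_nilp' t (fun a ha => D.sq a (htA a ha))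
    rw [eq_bot_iff]
    refine le_trans (Ideal.pow_le_pow_right (m := t.card + 1) (by omega)) ?_
    rw [h1]

/-- For each `u` in the group the entries of `u - 1` generate an ideal of nilpotency index
at most 10. -/
theorem exists_ideal'' (u : (Matrix (Fin 3) (Fin 3) C)ˣ) (hu : u ∈ Cong D.A) :
    ∃ I : Ideal C, u ∈ Cong I ∧ I ^ 10 = ⊥ := by
  classical
  let s : Finset C := Finset.univ.image
    (fun p : Fin 3 × Fin 3 => ((u : Matrix (Fin 3) (Fin 3) C) - 1) p.1 p.2)
  have hs : s.card ≤ 9 := by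
    refine le_trans Finset.card_image_le ?_
    simp
  have hsA : ∀ a ∈ s, a ∈ D.A := by
    intro a ha
    rw [Finset.mem_image] at ha
    obtain ⟨p, _, rfl⟩ := ha
    exact hu p.1 p.2
  refine ⟨Ideal.span (s : Set C), ?_, ?_⟩
  · intro i j
    apply Ideal.subset_span
    show _ ∈ (s : Set C)
    rw [Finset.mem_coe, Finset.mem_image]
    exact ⟨(i, j), Finset.mem_univ _, rfl⟩
  · have h1 := span_nilp' s (fun a ha => D.sq a (hsA a ha))
    rw [eq_bot_iff]
    refine le_trans (Ideal.pow_le_pow_right (m := s.card + 1) (by omega)) ?_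
    rw [h1]

/-- The involution is right 37-Engel. -/
theorem engel' (x : GG D) (a : ↥(Subgroup.zpowers (sN D))) :
    (fun y : GG D => y⁻¹ * x⁻¹ * y * x)^[37] (SemidirectProduct.inr a) = 1 := by
  obtain ⟨I, hIσ, hxI, hIA, hI⟩ := exists_ideal' D x.left.1 x.left.2
  obtain ⟨ρ, hρ, hρρ, hρx⟩ := H_ring D (x.right⁻¹)
  have hIρ : ∀ a ∈ I, ρ a ∈ I := by
    rcases hρ with rfl | rfl
    · intro a ha; exact ha
    · exact hIσ
  have hIρk : ∀ k : ℕ, ∀ a ∈ I ^ k, ρ a ∈ I ^ k := by
    intro k a ha
    have h1 : (I ^ k).map (ρ : C →+* C) ≤ I ^ k := by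
      rw [Ideal.map_pow]
      apply Ideal.pow_right_mono
      rw [Ideal.map_le_iff_le_comap]
      intro b hb
      exact hIρ b hb
    exact h1 (Ideal.mem_map_of_mem (ρ : C →+* C) ha)
  -- the first step
  set F := (fun y : GG D => y⁻¹ * x⁻¹ * y * x) with hF
  have hstart : ∃ b : ↥(Cong D.A), F (SemidirectProduct.inr a) = SemidirectProduct.inl b ∧
      b.1 ∈ Cong I := by
    refine ⟨(F (SemidirectProduct.inr a)).left, ?_, ?_⟩
    · ext1
      · rfl
      · simp only [hF, SemidirectProduct.mul_right, SemidirectProduct.inv_right,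
          SemidirectProduct.right_inr, SemidirectProduct.right_inl]
        have : a⁻¹ * x.right⁻¹ = x.right⁻¹ * a⁻¹ := by
          apply Subtype.ext
          obtain ⟨n, hn⟩ := a.2
          obtain ⟨m, hm⟩ := x.right.2
          have hn' : (a : MulAut ↥(Cong D.A)) = sN D ^ n := hn.symm
          have hm' : (x.right : MulAut ↥(Cong D.A)) = sN D ^ m := hm.symm
          simp only [Subgroup.coe_mul, Subgroup.coe_inv, hn', hm']
          group
        rw [this]
        simp
    · simp only [hF, SemidirectProduct.mul_left, SemidirectProduct.mul_right,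
        SemidirectProduct.inv_left, SemidirectProduct.inv_right,
        SemidirectProduct.right_inr, SemidirectProduct.left_inr, Subgroup.coe_subtype, inv_one,
        map_one, one_mul, mul_one]
      have hstab : ∀ (τ : ↥(Subgroup.zpowers (sN D))) (v : ↥(Cong D.A)), v.1 ∈ Cong I →
          ((τ : MulAut ↥(Cong D.A)) v).1 ∈ Cong I := by
        intro τ v hv
        obtain ⟨ρ', hρ', _, hρv⟩ := H_ring D τ
        rw [hρv]
        apply Cong_map ρ' _ hv
        rcases hρ' with rfl | rfl
        · intro a ha; exact ha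
        · exact hIσ
      rw [Subgroup.coe_mul]
      apply mul_mem
      · apply hstab
        apply hstab
        rw [Subgroup.coe_inv]
        exact inv_mem hxI
      · apply hstab
        exact hxI
  obtain ⟨b, hb, hbI⟩ := hstart
  -- iteration in the congruence subgroup
  let g : (Matrix (Fin 3) (Fin 3) C)ˣ → (Matrix (Fin 3) (Fin 3) C)ˣ :=
    fun b => b⁻¹ * sU ρ (x.left.1⁻¹ * b * x.left.1)
  have hg : ∀ b : ↥(Cong D.A), ∃ c : ↥(Cong D.A), F (SemidirectProduct.inl b) =
      SemidirectProduct.inl c ∧ c.1 = g b.1 := by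
    intro b
    refine ⟨_, conj_formula D x b, ?_⟩
    rw [Subgroup.coe_mul, hρx]
    rfl
  have hiter : ∀ k : ℕ, ∀ b : ↥(Cong D.A), ∃ c : ↥(Cong D.A),
      F^[k] (SemidirectProduct.inl b) = SemidirectProduct.inl c ∧ c.1 = g^[k] b.1 := by
    intro k
    induction k with
    | zero => intro b; exact ⟨b, rfl, rfl⟩
    | succ k ih =>
      intro b
      obtain ⟨c, hc, hc'⟩ := hg b
      obtain ⟨d, hd, hd'⟩ := ih c
      refine ⟨d, ?_, ?_⟩
      · rw [Function.iterate_succ_apply, hc, hd]
      · rw [Function.iterate_succ_apply, hd', hc']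
  have hdown : ∀ k : ℕ, ∀ b : (Matrix (Fin 3) (Fin 3) C)ˣ, b ∈ Cong I →
      g^[2 * k] b ∈ Cong (I ^ (k + 1)) := by
    intro k
    induction k with
    | zero => intro b hb; simpa using hb
    | succ k ih =>
      intro b hb
      have h1 : 2 * (k + 1) = (2 * k).succ.succ := by omega
      rw [h1, Function.iterate_succ_apply', Function.iterate_succ_apply']
      have h2 := ih b hb
      have h3 := two_steps D.two (I := I) (J := I ^ (k + 1)) (Ideal.pow_le_self (by omega)) ρ hρρ
        (hIρk (k + 1)) (by rw [← pow_succ']; exact hIρk (k + 2)) hxI h2 _ rfl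
      rw [← pow_succ'] at h3
      exact h3
  rw [Function.iterate_succ_apply, hb]
  obtain ⟨c, hc, hc'⟩ := hiter 36 b
  rw [hc]
  have h18 := hdown 18 b.1 hbI
  rw [show (2 * 18 : ℕ) = 36 from rfl, show (18 + 1 : ℕ) = 19 from rfl, hI, Cong_bot,
    Subgroup.mem_bot, ← hc'] at h18
  have : c = 1 := Subtype.ext h18
  rw [this, map_one]

/-! ### The exponent -/

theorem one_add_sq (h2 : (2 : C) = 0) (M : Matrix (Fin 3) (Fin 3) C) :
    (1 + M) ^ 2 = 1 + M ^ 2 := by
  have h : (1 + M) ^ 2 = 1 + M ^ 2 + (2 : C) • M := by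
    rw [two_smul, sq, sq]
    noncomm_ring
  rw [h, h2, zero_smul, add_zero]

theorem one_add_pow16 (h2 : (2 : C) = 0) (M : Matrix (Fin 3) (Fin 3) C) :
    (1 + M) ^ 16 = 1 + M ^ 16 := by
  rw [show (16 : ℕ) = 2 * 2 * 2 * 2 from rfl, pow_mul, pow_mul, pow_mul, pow_mul, pow_mul, pow_mul,
    one_add_sq h2, one_add_sq h2, one_add_sq h2, one_add_sq h2]

theorem InM_pow {I : Ideal C} {M : Matrix (Fin 3) (Fin 3) C} (hM : InM I M) (k : ℕ) :
    InM (I ^ k) (M ^ k) := by
  induction k with
  | zero =>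
    intro i j
    rw [pow_zero, Ideal.one_eq_top]
    trivial
  | succ k ih =>
    rw [pow_succ, pow_succ]
    exact InM.mul ih hM

theorem unit_pow16 (u : (Matrix (Fin 3) (Fin 3) C)ˣ) (hu : u ∈ Cong D.A) : u ^ 16 = 1 := by
  obtain ⟨I, hI, hI10⟩ := exists_ideal'' D u hu
  apply Units.ext
  rw [Units.val_pow_eq_pow_val, Units.val_one]
  have h1 : (u : Matrix (Fin 3) (Fin 3) C) = 1 + ((u : Matrix (Fin 3) (Fin 3) C) - 1) := by
    abel
  rw [h1, one_add_pow16 D.two]
  have h2 := InM_pow hI 16
  have h3 : I ^ 16 = ⊥ := by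
    rw [eq_bot_iff]
    refine le_trans (Ideal.pow_le_pow_right (m := 10) (by omega)) ?_
    rw [hI10]
  rw [h3] at h2
  have h4 : ((u : Matrix (Fin 3) (Fin 3) C) - 1) ^ 16 = 0 := by
    ext i j
    exact (Ideal.mem_bot.1 (h2 i j))
  rw [h4, add_zero]

theorem Bω_pow16 {g : GG D} (hg : g ∈ Bω D) : g ^ 16 = 1 := by
  obtain ⟨b, rfl⟩ := hg
  rw [← map_pow]
  have : b ^ 16 = 1 := by
    apply Subtype.ext
    rw [Subgroup.coe_pow]
    exact unit_pow16 D b.1 b.2
  rw [this, map_one]

/-- Squares lie in the kernel. -/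
theorem sq_mem_Bω (g : GG D) : g ^ 2 ∈ Bω D := by
  rw [mem_Bω, sq, SemidirectProduct.mul_right]
  apply Subtype.ext
  rw [Subgroup.coe_mul, Subgroup.coe_one]
  rcases H_cases D g.right with h | h
  · rw [h, one_mul]
  · rw [h, sN_sN]

theorem pow32 (g : GG D) : g ^ 32 = 1 := by
  rw [show (32 : ℕ) = 2 * 16 from rfl, pow_mul]
  exact Bω_pow16 D (sq_mem_Bω D g)

/-! ### Normality in the whole group -/

theorem B_normal (hJ : ∀ k, ∀ a ∈ D.J k, D.σ a ∈ D.J k) (k : ℕ) : (B D k).Normal where
  conj_mem := by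
    intro h hh g
    rw [mem_B] at hh ⊢
    obtain ⟨b, hb, rfl⟩ := hh
    refine ⟨g.left * (g.right : MulAut ↥(Cong D.A)) b * g.left⁻¹, ?_, ?_⟩
    · have h1 : ((g.right : MulAut ↥(Cong D.A)) b).1 ∈ Cong (D.J k) := by
        obtain ⟨ρ, hρ, _, hρv⟩ := H_ring D g.right
        rw [hρv]
        apply Cong_map ρ _ hb
        rcases hρ with rfl | rfl
        · intro a ha; exact ha
        · exact hJ k
      rw [Subgroup.coe_mul, Subgroup.coe_mul, Subgroup.coe_inv]
      exact (Cong_normal (D.J k)).conj_mem _ h1 _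
    · ext1
      · simp only [SemidirectProduct.mul_left, SemidirectProduct.inv_left,
          SemidirectProduct.left_inl, SemidirectProduct.mul_right, SemidirectProduct.right_inl,
          Subgroup.coe_subtype, mul_one]
        rw [← MulAut.mul_apply, ← Subgroup.coe_mul, mul_inv_cancel, Subgroup.coe_one,
          MulAut.one_apply]
      · simp only [SemidirectProduct.mul_right, SemidirectProduct.right_inl,
          SemidirectProduct.inv_right, mul_one, mul_inv_cancel]

/-! ### Not subnormal -/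

theorem not_isSubnormal (y : ℕ → C) (hy : ∀ a, y a ∈ D.A) (hF : ∀ m, Fn D y m 0 ≠ 0) :
    ¬ (Subgroup.zpowers (τ D)).IsSubnormal := by
  intro h
  obtain ⟨n, f, hf, hN, h0, hn⟩ := h.exists_chain
  have hK : Subgroup.zpowers (τ D) ≤ Subgroup.normalClosure {τ D} := by
    rw [Subgroup.zpowers_le]
    exact Subgroup.subset_normalClosure rfl
  refine not_subnormal D y hy hF n (fun i => f i ⊓ Subgroup.normalClosure {τ D}) ?_ ?_ ?_
  · show f 0 ⊓ _ = _
    rw [h0, inf_eq_left]
    exact hK
  · show f n ⊓ _ = _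
    rw [hn, top_inf_eq, sup_eq_right.2 hK]
  · intro i _
    refine ⟨inf_le_inf_right _ (hf (Nat.le_succ i)), ?_⟩
    intro g hg h hh
    refine ⟨?_, ?_⟩
    · have h1 := hN i
      have h2 := (Subgroup.normal_subgroupOf_iff (hf (Nat.le_succ i))).1 h1
      exact h2 h g hh.1 hg.1
    · exact Subgroup.normalClosure_normal.conj_mem h hh.2 g

theorem not_isSubnormal' (y : ℕ → C) (hy : ∀ a, y a ∈ D.A) (hF : ∀ m, Fn D y m 0 ≠ 0) :
    ¬ ((Subgroup.zpowers (τ D)).subgroupOf (Subgroup.normalClosure {τ D})).IsSubnormal := by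
  intro h
  apply not_isSubnormal D y hy hF
  refine Subgroup.IsSubnormal.trans ?_ h (Subgroup.normalClosure_normal).isSubnormal
  rw [Subgroup.zpowers_le]
  exact Subgroup.subset_normalClosure rfl

end

end Pool.Agent.Lib_5f1296_ins
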