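import Pool.Agent.Lib_5f1296_ins.Core

set_option autoImplicit false
set_option linter.unusedSectionVars false
set_option linter.unusedVariables false

namespace Pool.Agent.Lib_5f1296_ins

open Pool.Agent.Lib_5f1296

/-- the order of the variables: 1, 0, 3, 2, 5, 4, ... -/
def pp (n : ℕ) : ℕ := if Even n then n + 1 else n - 1

theorem pp_pp (n : ℕ) : pp (pp n) = n := by
  unfold pp
  rcases Nat.even_or_odd' n with ⟨m, rfl | rfl⟩
  · rw [if_pos (even_two_mul m), if_neg (by simp)]
    omega
  · have h1 : ¬ Even (2 * m + 1) := by simp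
    rw [if_neg h1, Nat.add_sub_cancel, if_pos (even_two_mul m)]

/-- the chain of ideals, in the new order of the variables; all its members are stable under the
involution -/
noncomputable def KK (k : ℕ) : Ideal CC := Ideal.span ((fun n => x (pp n)) '' {n | n < k})

theorem KK_mono : Monotone KK := by
  intro k l hkl
  apply Ideal.span_mono
  apply Set.image_mono
  intro n hn
  exact lt_of_lt_of_le hn hkl

theorem KK_succ (k : ℕ) : KK (k + 1) = KK k ⊔ Ideal.span {x (pp k)} := by
  unfold KK
  rw [← Ideal.span_union]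
  congr 1
  ext c
  constructor
  · rintro ⟨n, hn, rfl⟩
    rcases Nat.lt_succ_iff_lt_or_eq.1 hn with h | h
    · left; exact ⟨n, h, rfl⟩
    · right; rw [h]; rfl
  · rintro (⟨n, hn, rfl⟩ | h)
    · exact ⟨n, Nat.lt_succ_of_lt hn, rfl⟩
    · rw [Set.mem_singleton_iff] at h
      rw [h]
      exact ⟨k, Nat.lt_succ_self k, rfl⟩

theorem KK_stab (k : ℕ) : ∀ a ∈ KK k, DD.σ a ∈ KK k := by
  intro a ha
  have h1 : KK k ≤ (KK k).comap σσ := by
    rw [show KK k = Ideal.span ((fun n => x (pp n)) '' {n | n < k}) from rfl, Ideal.span_le]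
    rintro _ ⟨n, hn, rfl⟩
    show σσ (x (pp n)) ∈ KK k
    rw [σσ_apply]
    have hn' : n < k := hn
    have hmem : ∀ j, j < k → x (pp j) ∈ KK k := fun j hj => Ideal.subset_span ⟨j, hj, rfl⟩
    rcases Nat.even_or_odd' n with ⟨m, rfl | rfl⟩
    · have h2 : pp (2 * m) = 2 * m + 1 := by
        unfold pp; rw [if_pos (even_two_mul m)]
      have h3 := hmem _ hn'
      rw [h2] at h3 ⊢
      rw [ψ_odd]
      exact h3
    · have h2 : pp (2 * m + 1) = 2 * m := by
        unfold pp; rw [if_neg (by simp)]; rfl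
      have h2' : pp (2 * m) = 2 * m + 1 := by
        unfold pp; rw [if_pos (even_two_mul m)]
      have h3 := hmem _ hn'
      have h4 := hmem (2 * m) (by omega)
      rw [h2] at h3 ⊢
      rw [h2'] at h4
      rw [ψ_even]
      exact Ideal.add_mem _ h3 h4
  exact h1 ha

/-- The data with the chain of stable ideals. -/
noncomputable def EE : Data CC where
  σ := DD.σ
  invol := DD.invol
  two := DD.two
  A := DD.A
  sq := DD.sq
  stab := DD.stab
  J := KK
  J0 := by
    unfold KK
    simp
  Jmono := KK_mono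
  Jsq := by
    intro k
    rw [KK_succ]
    rw [Ideal.sup_mul, Ideal.mul_sup, Ideal.mul_sup]
    refine sup_le (sup_le Ideal.mul_le_right Ideal.mul_le_left) (sup_le Ideal.mul_le_right ?_)
    rw [Ideal.span_singleton_mul_span_singleton, x_sq]
    simp
  JA := by
    intro k
    apply Ideal.span_mono
    rintro _ ⟨n, _, rfl⟩
    exact ⟨pp n, rfl⟩
  Jsup := by
    have h1 : ∀ a ∈ AA, ∃ k, a ∈ KK k := by
      intro a ha
      unfold AA at ha
      induction ha using Submodule.span_induction with
      | mem a h =>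
        obtain ⟨n, rfl⟩ := h
        refine ⟨pp n + 1, Ideal.subset_span ⟨pp n, Nat.lt_succ_self _, ?_⟩⟩
        show x (pp (pp n)) = x n
        rw [pp_pp]
      | zero => exact ⟨0, Ideal.zero_mem _⟩
      | add a b _ _ ha hb =>
        obtain ⟨k, hk⟩ := ha
        obtain ⟨l, hl⟩ := hb
        exact ⟨max k l, Ideal.add_mem _ (KK_mono (le_max_left k l) hk)
          (KK_mono (le_max_right k l) hl)⟩
      | smul c a _ ha =>
        obtain ⟨k, hk⟩ := ha
        exact ⟨k, Ideal.mul_mem_left _ _ hk⟩
    intro s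
    classical
    induction s using Finset.induction_on with
    | empty => intro _; exact ⟨0, by simp⟩
    | insert a s _ ih =>
      intro h
      obtain ⟨k, hk⟩ := ih (fun b hb => h b (Finset.mem_insert_of_mem hb))
      obtain ⟨l, hl⟩ := h1 a (h a (Finset.mem_insert_self a s))
      refine ⟨max k l, ?_⟩
      intro b hb
      rw [Finset.mem_insert] at hb
      rcases hb with rfl | hb
      · exact KK_mono (le_max_right k l) hl
      · exact KK_mono (le_max_left k l) (hk b hb)

theorem Fn_succ {C : Type} [CommRing C] (D : Data C) (y : ℕ → C) (m a : ℕ) :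
    Fn D y (m + 1) a = (Fn D y m a - D.σ (Fn D y m a)) * Fn D y m (a + 2 ^ m) := rfl

theorem Fn_zero {C : Type} [CommRing C] (D : Data C) (y : ℕ → C) (a : ℕ) :
    Fn D y 0 a = y a := rfl

theorem EE_σ : EE.σ = DD.σ := rfl

theorem Fn_EE (y : ℕ → CC) (m : ℕ) : ∀ a, Fn EE y m a = Fn DD y m a := by
  induction m with
  | zero => intro a; rw [Fn_zero, Fn_zero]
  | succ m ih =>
    intro a
    rw [Fn_succ, Fn_succ, ih, ih, EE_σ]

theorem Fn_EE_ne (m : ℕ) : Fn EE (fun a => x (2 * a)) m 0 ≠ 0 := by
  rw [Fn_EE]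
  exact Fn_ne m

theorem x_mem (n : ℕ) : x n ∈ EE.A := Ideal.subset_span ⟨n, rfl⟩

theorem x_one_ne : x 1 ≠ 0 := by
  have := prod_ne 1 0
  simpa using this

theorem sN_ne : sN EE ≠ 1 := by
  intro h
  have h1 : sN EE ⟨E 0 1 (by decide) (x 0), E_mem 0 1 (by decide) (x_mem 0)⟩
      = ⟨E 0 1 (by decide) (x 0), E_mem 0 1 (by decide) (x_mem 0)⟩ := by
    rw [h]; rfl
  have h2 : sU EE.σ (E 0 1 (by decide) (x 0)) = E 0 1 (by decide) (x 0) :=
    congrArg Subtype.val h1
  rw [E_sigma] at h2
  have h3 : ((E 0 1 (by decide) (EE.σ (x 0)) : (Matrix (Fin 3) (Fin 3) CC)ˣ) :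
      Matrix (Fin 3) (Fin 3) CC) 0 1
      = ((E 0 1 (by decide) (x 0) : (Matrix (Fin 3) (Fin 3) CC)ˣ) :
      Matrix (Fin 3) (Fin 3) CC) 0 1 := by
    rw [h2]
  rw [E_val, E_val, Matrix.add_apply, Matrix.add_apply, Matrix.single_apply_same,
    Matrix.single_apply_same, add_right_inj] at h3
  have h4 : EE.σ (x 0) = x 0 + x 1 := by
    rw [EE_σ]
    exact ψ_even 0
  rw [h4] at h3
  exact x_one_ne (by simpa using h3)

theorem orderOf_sN : orderOf (sN EE) = 2 := by
  apply orderOf_eq_prime
  · rw [sq]; exact sN_sN EE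
  · exact sN_ne

theorem orderOf_τ : orderOf (τ EE) = 2 := by
  apply orderOf_eq_prime
  · unfold τ
    rw [← map_pow]
    have : (⟨sN EE, Subgroup.mem_zpowers _⟩ : ↥(Subgroup.zpowers (sN EE))) ^ 2 = 1 := by
      apply Subtype.ext
      rw [Subgroup.coe_pow, sq]
      exact sN_sN EE
    rw [this, map_one]
  · intro h
    apply sN_ne
    have h1 : (τ EE).right = 1 := by rw [h]; rfl
    exact congrArg Subtype.val h1

theorem Bω_index : (Bω EE).index = 2 := by
  have h1 : Bω EE = (SemidirectProduct.rightHom :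
      GG EE →* ↥(Subgroup.zpowers (sN EE))).ker := by
    ext g
    rw [mem_Bω, MonoidHom.mem_ker]
    rfl
  rw [h1, Subgroup.index_ker]
  have h2 : (SemidirectProduct.rightHom :
      GG EE →* ↥(Subgroup.zpowers (sN EE))).range = ⊤ :=
    MonoidHom.range_eq_top.2 SemidirectProduct.rightHom_surjective
  rw [h2, Subgroup.card_top, Nat.card_zpowers, orderOf_sN]

instance : Countable P := by
  have h1 : Countable ((ℕ →₀ ℕ) →₀ ZMod 2) := inferInstance
  exact Function.Injective.countable (AddMonoidAlgebra.coeff_injective (R := ZMod 2) (M := ℕ →₀ ℕ))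

instance : Countable CC := by
  unfold CC
  exact Function.Surjective.countable (Ideal.Quotient.mk_surjective (I := Q))

theorem countable_GG : Countable (GG EE) := by
  have h1 : Countable (Matrix (Fin 3) (Fin 3) CC) := by
    unfold Matrix
    infer_instance
  have h2 : Countable (Matrix (Fin 3) (Fin 3) CC)ˣ :=
    Function.Injective.countable Units.val_injective
  have h3 : Countable ↥(Subgroup.zpowers (sN EE)) := by
    have : Finite ↥(Subgroup.zpowers (sN EE)) := by
      apply Nat.finite_of_card_ne_zero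
      rw [Nat.card_zpowers, orderOf_sN]
      decide
    infer_instance
  exact Function.Injective.countable (SemidirectProduct.equivProd (N := ↥(Cong EE.A))
    (G := ↥(Subgroup.zpowers (sN EE))) (φ := (Subgroup.zpowers (sN EE)).subtype)).injective

end Pool.Agent.Lib_5f1296_ins
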